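import Pool.Agent.Lib.MP_f6efc0_lc.Core.StageA

/-!
The oracle: all computations have codes, and every machine of class RP is defeated by every
reduction.
-/

namespace F6Core

namespace Sys

variable (S : Sys)

/-- The state of the construction below the length `N`. -/
def InvA (N : ℕ) (A : Orc) : Prop := S.Legal A ∧ ∀ j n : ℕ, j + n + 3 < N →
  yes A j n = ∅ ∨ 2 ^ n < (yes A j n).card ∨
    ∃ x : Wd, S.bd j x.length < N ∧ 0 < S.pr j A x ∧ S.pr j A x ≤ 1 / 2

/-- The requirement for a machine and a reduction. -/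
def ReqA (t N : ℕ) (A : Orc) : Prop := ∃ x : Wd, S.bd t.unpair.2 x.length < N ∧
  S.bd t.unpair.1 (S.F t.unpair.2 A x).length < N ∧ t.unpair.1 + x.length + 3 < N ∧
  S.Win t.unpair.1 t.unpair.2 A x

end Sys

theorem yes_congr {A B : Orc} {N j n : ℕ} (h : agree N A B) (hN : j + n + 3 < N) :
    yes A j n = yes B j n := by
  unfold yes
  refine Finset.filter_congr fun y hy => ?_
  rw [mem_wds] at hy
  rw [h (yw j y) (by rw [length_yw]; omega)]

namespace Sys

variable (S : Sys)

theorem stepA (t N : ℕ) (A : Orc) (h : S.InvA N A) :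
    ∃ (N' : ℕ) (A' : Orc), N < N' ∧ agree N A A' ∧ S.InvA N' A' ∧ S.ReqA t N' A' := by
  obtain ⟨n, A', hNn, hag, hL, hyw, hwin⟩ := S.stageA t.unpair.1 t.unpair.2 N A fun _ => h.1
  set j := t.unpair.1 with hj
  set i := t.unpair.2 with hi
  set z := S.F i A' (zs n) with hz
  have hz' : z.length ≤ S.bd i n := by
    have := S.outF i A' (zs n)
    rwa [length_zs] at this
  have hz2 := S.bd_mono j hz'
  refine ⟨N + n + j + S.bd i n + S.bd j (S.bd i n) + 4, A', by omega, hag, ⟨hL, ?_⟩, ?_⟩
  · intro j' n' hjn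
    rcases lt_or_ge (j' + n' + 3) N with h1 | h1
    · rw [← yes_congr hag h1]
      rcases h.2 j' n' h1 with h2 | h2 | ⟨x, h2, h3, h4⟩
      · exact Or.inl h2
      · exact Or.inr (Or.inl h2)
      · refine Or.inr (Or.inr ⟨x, by omega, ?_⟩)
        rw [← S.pr_congr' hag h2]
        exact ⟨h3, h4⟩
    · by_cases h2 : j' = j ∧ n' = n
      · obtain ⟨rfl, rfl⟩ := h2
        rcases hwin with h3 | h3 | h3
        · rw [length_zs] at h3
          exact Or.inl h3.1
        · rw [length_zs] at h3
          exact Or.inr (Or.inl h3.1)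
        · exact Or.inr (Or.inr ⟨z, by omega, h3⟩)
      · left
        rw [Finset.eq_empty_iff_forall_notMem]
        intro y hy
        rw [mem_yes] at hy
        obtain ⟨h3, h4⟩ := hyw j' y (by rw [length_yw]; omega) hy.2
        exact h2 ⟨h3, by omega⟩
  · refine ⟨zs n, ?_, ?_, ?_, hwin⟩
    · rw [length_zs, ← hi]
      omega
    · rw [← hj, ← hi, ← hz]
      omega
    · rw [length_zs]
      omega

/-- **The oracle.** -/
theorem core_a : ∃ A : Orc, S.Legal A ∧ ∀ j : ℕ,
    (∀ x, S.pr j A x = 0 ∨ 1 / 2 < S.pr j A x) →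
    (∀ n, (∀ y : Wd, y.length = n + 1 → A (yw j y) = false) ∨
      2 ^ n < ((wds (n + 1)).filter fun y => A (yw j y) = true).card) ∧
    ∀ i : ℕ, ∃ x : Wd, ¬ ((∃ y : Wd, y.length = x.length + 1 ∧ A (yw j y) = true) ↔
      0 < S.pr j A (S.F i A x)) := by
  obtain ⟨A, hreq, hlim⟩ := fusion S.InvA S.ReqA 0 (S.A0 (fun _ => false) 0)
    ⟨S.A0_legal (fun h => absurd h (lt_irrefl 0)), fun j n h => absurd h (Nat.not_lt_zero _)⟩
    S.stepA
  refine ⟨A, ?_, ?_⟩
  · refine ⟨fun j s m x hm => ?_, fun v => ?_⟩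
    swap
    · obtain ⟨N, A', hN, hinv, hag⟩ := hlim (2 * v.length + 3)
      obtain ⟨b, h1⟩ := hinv.1.2 v
      refine ⟨b, ?_⟩
      have : ((wds (v.length + 1)).filter fun ρ => A (cw v ρ) ≠ b) =
        ((wds (v.length + 1)).filter fun ρ => A' (cw v ρ) ≠ b) := by
        refine Finset.filter_congr fun ρ hρ => ?_
        rw [hag _ (by rw [length_cw (mem_wds.1 hρ)]; omega)]
      rw [this]
      exact h1
    obtain ⟨N, A', hN, hinv, hag⟩ := hlim (2 * (vc j s m x).length + 3)
    obtain ⟨b, h1, h2, h3⟩ := hinv.1.1 j s m x hm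
    have hl := length_vc j s m x
    have hpr : S.pr j A' x = S.pr j A x := S.pr_congr' hag (by omega)
    refine ⟨b, ?_, by rw [← hpr]; exact h2, by rw [← hpr]; exact h3⟩
    have : ((wds ((vc j s m x).length + 1)).filter fun ρ => A (cw (vc j s m x) ρ) ≠ b) =
      ((wds ((vc j s m x).length + 1)).filter fun ρ => A' (cw (vc j s m x) ρ) ≠ b) := by
      refine Finset.filter_congr fun ρ hρ => ?_
      rw [hag _ (by rw [length_cw (mem_wds.1 hρ)]; omega)]
    rw [this]
    exact h1
  · intro j hprom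
    have hno : ∀ x, ¬ (0 < S.pr j A x ∧ S.pr j A x ≤ 1 / 2) := by
      rintro x ⟨h1, h2⟩
      rcases hprom x with h3 | h3
      · rw [h3] at h1
        exact lt_irrefl _ h1
      · exact absurd h2 (not_le.2 h3)
    refine ⟨fun n => ?_, fun i => ?_⟩
    · obtain ⟨N, A', hN, hinv, hag⟩ := hlim (j + n + 4)
      rcases hinv.2 j n (by omega) with h1 | h1 | ⟨x, h1, h2⟩
      · left
        rw [yes_congr hag (by omega)] at h1
        intro y hy
        by_contra h2
        have h3 : y ∈ yes A j n := mem_yes.2 ⟨hy, by simpa using h2⟩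
        rw [h1] at h3
        exact absurd h3 (Finset.notMem_empty y)
      · right
        rw [yes_congr hag (by omega)] at h1
        exact h1
      · exfalso
        rw [S.pr_congr' hag h1] at h2
        exact hno x h2
    · obtain ⟨N, A', hinv, ⟨x, h1, h2, h3, h4⟩, hag⟩ := hreq (Nat.pair j i)
      rw [Nat.unpair_pair] at h1 h2 h3 h4
      simp only [] at h1 h2 h3 h4
      have hF : S.F i A x = S.F i A' x := S.F_congr hag h1
      have hpr : S.pr j A (S.F i A x) = S.pr j A' (S.F i A' x) := by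
        rw [hF, S.pr_congr' hag h2]
      refine ⟨x, ?_⟩
      rw [hpr]
      rcases h4 with h4 | h4 | h4
      · rw [yes_congr hag h3] at h4
        intro h5
        obtain ⟨y, hy1, hy2⟩ := h5.2 h4.2
        have h6 : y ∈ yes A j x.length := mem_yes.2 ⟨hy1, hy2⟩
        rw [h4.1] at h6
        exact absurd h6 (Finset.notMem_empty y)
      · rw [yes_congr hag h3] at h4
        intro h5
        obtain ⟨y, hy⟩ := Finset.card_pos.1 ((Nat.zero_le _).trans_lt h4.1)
        have h6 := h5.1 ⟨y, mem_yes.1 hy⟩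
        rw [h4.2] at h6
        exact lt_irrefl _ h6
      · rw [← hpr] at h4
        exact absurd h4 (hno _)

end Sys

end F6Core
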