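import Pool.Agent.Lib.MP_f6efc0_lc.Core.Sys

/-!
Arithmetic: a quasipolynomial is less than `2^(n/2)` for some large `n`.
-/

namespace F6Core

theorem ar_exp (C w : ℕ) (hw : 240 * (C + 1) ^ 2 + 1 ≤ w) :
    7 + 2 * (4 * w * C) + (2 * (4 * w * C) + 1) * (4 * w * C + 1) ≤ 2 ^ (4 * w) / 2 := by
  have hw1 : 1 ≤ w := by omega
  -- the quadratic polynomial is at most `w ^ 3`
  have h1 : 7 + 2 * (4 * w * C) + (2 * (4 * w * C) + 1) * (4 * w * C + 1) ≤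
      240 * (C + 1) ^ 2 * w ^ 2 := by
    have h2 : 1 ≤ w ^ 2 := Nat.one_le_pow _ _ hw1
    have h3 : w ≤ w ^ 2 := by nlinarith
    have h4 : 7 + 2 * (4 * w * C) + (2 * (4 * w * C) + 1) * (4 * w * C + 1) =
        8 + 20 * (w * C) + 32 * (w ^ 2 * C ^ 2) := by ring
    rw [h4]
    have h5 : w * C ≤ w ^ 2 * C := Nat.mul_le_mul_right _ h3
    have h6 : 240 * (C + 1) ^ 2 * w ^ 2 =
        240 * (w ^ 2 * C ^ 2) + 480 * (w ^ 2 * C) + 240 * w ^ 2 := by ring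
    rw [h6]
    omega
  have h2 : 240 * (C + 1) ^ 2 * w ^ 2 ≤ w ^ 3 := by
    rw [pow_succ w 2, mul_comm (w ^ 2) w]
    exact Nat.mul_le_mul_right _ (by omega)
  have h3 : w ^ 3 ≤ 2 ^ (3 * w) := by
    rw [mul_comm, pow_mul]
    exact Nat.pow_le_pow_left Nat.lt_two_pow_self.le 3
  have h4 : 2 ^ (3 * w) ≤ 2 ^ (4 * w) / 2 := by
    rw [Nat.le_div_iff_mul_le two_pos, ← pow_succ]
    exact Nat.pow_le_pow_right two_pos (by omega)
  exact h1.trans (h2.trans (h3.trans h4))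

theorem ar (C N : ℕ) : ∃ n, N ≤ n ∧ 2 ≤ n ∧ ∀ P ≤ n ^ C,
    8 * (8 * P ^ 2 * (P ^ 2 + 1) ^ (Nat.log 2 P + 1) + P) ≤ 2 ^ (n / 2) := by
  set w := 240 * (C + 1) ^ 2 + 1 + N with hw
  have hC1 : 1 ≤ (C + 1) ^ 2 := Nat.one_le_pow _ _ (Nat.succ_pos C)
  have hwt : w ≤ 2 ^ (4 * w) :=
    Nat.lt_two_pow_self.le.trans (Nat.pow_le_pow_right two_pos (by omega))
  refine ⟨2 ^ (4 * w), by omega, by omega, fun P hP => ?_⟩
  have hw0 : 240 * (C + 1) ^ 2 + 1 ≤ w := by omega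
  clear_value w
  set T := 4 * w * C with hT
  have hP' : P ≤ 2 ^ T := by
    rw [hT, pow_mul]
    exact hP
  have hL : Nat.log 2 P ≤ T := by
    refine (Nat.log_mono_right hP').trans ?_
    rw [Nat.log_pow one_lt_two]
  have hP2 : P ^ 2 ≤ 2 ^ (2 * T) := by
    rw [mul_comm, pow_mul]
    exact Nat.pow_le_pow_left hP' 2
  have hP3 : P ^ 2 + 1 ≤ 2 ^ (2 * T + 1) := by
    have e1 : 2 ^ (2 * T + 1) = 2 * 2 ^ (2 * T) := by
      rw [pow_succ, mul_comm]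
    have : 1 ≤ 2 ^ (2 * T) := Nat.one_le_two_pow
    omega
  have h1 : (P ^ 2 + 1) ^ (Nat.log 2 P + 1) ≤ 2 ^ ((2 * T + 1) * (T + 1)) := by
    rw [pow_mul]
    refine (Nat.pow_le_pow_left hP3 _).trans (Nat.pow_le_pow_right (by positivity) (by omega))
  have h2 : 8 * P ^ 2 * (P ^ 2 + 1) ^ (Nat.log 2 P + 1) ≤
      2 ^ (3 + 2 * T + (2 * T + 1) * (T + 1)) := by
    have e2 : 2 ^ (3 + 2 * T + (2 * T + 1) * (T + 1)) =
        8 * 2 ^ (2 * T) * 2 ^ ((2 * T + 1) * (T + 1)) := by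
      rw [pow_add, pow_add]
      norm_num
    rw [e2]
    exact Nat.mul_le_mul (Nat.mul_le_mul le_rfl hP2) h1
  have h3 : P ≤ 2 ^ (3 + 2 * T + (2 * T + 1) * (T + 1)) :=
    hP'.trans (Nat.pow_le_pow_right two_pos (by nlinarith))
  have h4 : 8 * (8 * P ^ 2 * (P ^ 2 + 1) ^ (Nat.log 2 P + 1) + P) ≤
      2 ^ (7 + 2 * T + (2 * T + 1) * (T + 1)) := by
    have h5 : 2 ^ (7 + 2 * T + (2 * T + 1) * (T + 1)) =
        16 * 2 ^ (3 + 2 * T + (2 * T + 1) * (T + 1)) := by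
      rw [show 7 + 2 * T + (2 * T + 1) * (T + 1) =
        4 + (3 + 2 * T + (2 * T + 1) * (T + 1)) by ring, pow_add]
      norm_num
    rw [h5]
    omega
  exact h4.trans (Nat.pow_le_pow_right two_pos (ar_exp C w hw0))

end F6Core
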