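import Pool.Agent.Lib.MP_f6efc0_lc.Core.Sys

/-!
Influences: how changes of the oracle at some words propagate through the code words.
-/

namespace F6Core

namespace Sys

variable (S : Sys)

/-- The expected sum of `f` over the questions of machine `j` on `x`. -/
noncomputable def av (j : ℕ) (A : Orc) (x : Wd) (f : Wd → ℝ) : ℝ :=
  (∑ r ∈ wds (S.rl j x.length), ∑ q ∈ S.askA j A x r, f q) / 2 ^ S.rl j x.length

theorem av_mono {j : ℕ} {A : Orc} {x : Wd} {f g : Wd → ℝ}
    (h : ∀ q : Wd, q.length ≤ S.bd j x.length → f q ≤ g q) : S.av j A x f ≤ S.av j A x g := by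
  unfold av
  refine div_le_div_of_nonneg_right ?_ (by positivity)
  refine Finset.sum_le_sum fun r hr => Finset.sum_le_sum fun q hq => h q ?_
  exact S.lenA j A x r (mem_wds.1 hr) q hq

theorem av_nonneg {j : ℕ} {A : Orc} {x : Wd} {f : Wd → ℝ} (h : ∀ q, 0 ≤ f q) :
    0 ≤ S.av j A x f :=
  div_nonneg (Finset.sum_nonneg fun _ _ => Finset.sum_nonneg fun q _ => h q) (by positivity)

theorem av_sum {j : ℕ} {A : Orc} {x : Wd} (T : Finset Wd) (f : Wd → Wd → ℝ) :
    S.av j A x (fun q => ∑ t ∈ T, f q t) = ∑ t ∈ T, S.av j A x fun q => f q t := by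
  unfold av
  rw [← Finset.sum_div]
  congr 1
  rw [Finset.sum_comm (s := T)]
  refine Finset.sum_congr rfl fun r _ => ?_
  rw [Finset.sum_comm]

theorem av_const_le {j : ℕ} {A : Orc} {x : Wd} {c : ℝ} (hc : 0 ≤ c) :
    S.av j A x (fun _ => c) ≤ S.bd j x.length * c := by
  unfold av
  rw [div_le_iff₀ (by positivity)]
  have h1 : ∀ r ∈ wds (S.rl j x.length), ∑ _q ∈ S.askA j A x r, c ≤ S.bd j x.length * c := by
    intro r hr
    rw [Finset.sum_const, nsmul_eq_mul]
    refine mul_le_mul_of_nonneg_right ?_ hc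
    exact_mod_cast S.cardA j A x r (mem_wds.1 hr)
  refine (Finset.sum_le_sum h1).trans ?_
  rw [Finset.sum_const, card_wds, nsmul_eq_mul]
  push_cast
  rw [mul_comm]

open Classical in
/-- The indicator of a set of words. -/
noncomputable def chi (Δ : Set Wd) (q : Wd) : ℝ := if q ∈ Δ then 1 else 0

theorem chi_nonneg (Δ : Set Wd) (q : Wd) : 0 ≤ chi Δ q := by
  unfold chi
  split_ifs
  · exact zero_le_one
  · exact le_rfl

/-- Two oracles with the set of differences `Δ`: the acceptance probabilities differ by at most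
the expected number of questions in `Δ`. -/
theorem pr_sub_le (j : ℕ) (A B : Orc) (x : Wd) :
    |S.pr j B x - S.pr j A x| ≤ S.av j A x (chi {q | B q ≠ A q}) := by
  classical
  set Δ : Set Wd := {q | B q ≠ A q} with hΔ
  -- the random words for which a question lies in `Δ`
  set D := (wds (S.rl j x.length)).filter fun r => ∃ q ∈ S.askA j A x r, q ∈ Δ with hD
  have h1 : ∀ r ∈ wds (S.rl j x.length), r ∉ D → S.acc j B x r = S.acc j A x r := by
    intro r hr hrD
    refine S.locA j A B x r (mem_wds.1 hr) fun q hq => ?_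
    by_contra h
    exact hrD (Finset.mem_filter.2 ⟨hr, q, hq, fun h' => h h'.symm⟩)
  have h2 : ∀ A' B' : Orc, (∀ r ∈ wds (S.rl j x.length), r ∉ D → S.acc j B' x r = S.acc j A' x r) →
      ((wds (S.rl j x.length)).filter fun r => S.acc j B' x r = true).card ≤
      ((wds (S.rl j x.length)).filter fun r => S.acc j A' x r = true).card + D.card := by
    intro A' B' h
    refine (Finset.card_le_card (t := ((wds (S.rl j x.length)).filter fun r =>
      S.acc j A' x r = true) ∪ D) fun r hr => ?_).trans (Finset.card_union_le _ _)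
    rw [Finset.mem_filter] at hr
    rw [Finset.mem_union, Finset.mem_filter]
    by_cases hrD : r ∈ D
    · exact Or.inr hrD
    · exact Or.inl ⟨hr.1, by rw [← h r hr.1 hrD]; exact hr.2⟩
  have h3 := h2 A B h1
  have h4 := h2 B A fun r hr hrD => (h1 r hr hrD).symm
  have h5 : (D.card : ℝ) ≤ ∑ r ∈ wds (S.rl j x.length), ∑ q ∈ S.askA j A x r, chi Δ q := by
    rw [Finset.card_eq_sum_ones, Nat.cast_sum]
    refine (Finset.sum_le_sum_of_subset_of_nonneg (s := D) (t := wds (S.rl j x.length))
      (f := fun r => ∑ q ∈ S.askA j A x r, chi Δ q) (Finset.filter_subset _ _)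
      (fun r _ _ => Finset.sum_nonneg fun q _ => chi_nonneg _ _)).trans' ?_
    refine Finset.sum_le_sum fun r hr => ?_
    obtain ⟨q, hq, hqΔ⟩ := (Finset.mem_filter.1 hr).2
    have h6 : chi Δ q ≤ ∑ q ∈ S.askA j A x r, chi Δ q :=
      Finset.single_le_sum (fun q _ => chi_nonneg Δ q) hq
    have h7 : chi Δ q = 1 := by
      unfold chi
      rw [if_pos hqΔ]
    rw [h7] at h6
    exact_mod_cast h6
  unfold pr av
  rw [← sub_div, abs_div, abs_of_pos (show (0 : ℝ) < 2 ^ S.rl j x.length by positivity)]
  refine div_le_div_of_nonneg_right ?_ (by positivity)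
  refine le_trans ?_ h5
  rw [abs_le]
  have h3' : (((wds (S.rl j x.length)).filter fun r => S.acc j B x r = true).card : ℝ) ≤
      ((wds (S.rl j x.length)).filter fun r => S.acc j A x r = true).card + D.card := by
    exact_mod_cast h3
  have h4' : (((wds (S.rl j x.length)).filter fun r => S.acc j A x r = true).card : ℝ) ≤
      ((wds (S.rl j x.length)).filter fun r => S.acc j B x r = true).card + D.card := by
    exact_mod_cast h4
  constructor <;> linarith

open Classical in
/-- The computation whose code word is `q`, if any. -/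
noncomputable def dec (q : Wd) : Option (ℕ × ℕ × ℕ × Wd) :=
  if h : ∃ p, S.IsC q p then some h.choose else none

theorem dec_eq {q : Wd} {p : ℕ × ℕ × ℕ × Wd} (h : S.IsC q p) : S.dec q = some p := by
  unfold dec
  have h' : ∃ p, S.IsC q p := ⟨p, h⟩
  rw [dif_pos h', IsC.unique S h'.choose_spec h]

theorem isC_of_dec {q : Wd} {p : ℕ × ℕ × ℕ × Wd} (h : S.dec q = some p) : S.IsC q p := by
  unfold dec at h
  split_ifs at h with h'
  rw [← Option.some.inj h]
  exact h'.choose_spec

open Classical in
/-- The influence of the word `t` on the word `q`, with recursion depth `k`. -/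
noncomputable def inf (A : Orc) : ℕ → Wd → Wd → ℝ
  | 0, _, _ => 0
  | k + 1, q, t => (if q = t then 1 else 0) + (match S.dec q with
    | none => 0
    | some p => ((p.2.1 : ℝ) + 1) * S.av p.1 A p.2.2.2 fun q' => inf A k q' t)

theorem inf_nonneg (A : Orc) (k : ℕ) (q t : Wd) : 0 ≤ S.inf A k q t := by
  induction k generalizing q with
  | zero => exact le_rfl
  | succ k ih =>
    rw [inf]
    refine add_nonneg ?_ ?_
    · split_ifs
      · exact zero_le_one
      · exact le_rfl
    · rcases h : S.dec q with _ | p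
      · exact le_rfl
      · exact mul_nonneg (by positivity) (S.av_nonneg fun q' => ih q')

theorem one_le_inf (A : Orc) (k : ℕ) (q : Wd) : 1 ≤ S.inf A (k + 1) q q := by
  rw [inf, if_pos rfl]
  refine le_add_of_nonneg_right ?_
  rcases h : S.dec q with _ | p
  · exact le_rfl
  · exact mul_nonneg (by positivity) (S.av_nonneg fun q' => S.inf_nonneg A k q' q)

/-- The total influence on a word of length at most `P`. -/
theorem sum_inf_le (A : Orc) (P : ℕ) (T : Finset Wd) (k : ℕ) (q : Wd) (hq : q.length ≤ P) :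
    ∑ t ∈ T, S.inf A k q t ≤ ((P : ℝ) ^ 2 + 1) ^ k := by
  induction k generalizing q with
  | zero =>
    simp only [inf, Finset.sum_const_zero, pow_zero]
    exact zero_le_one
  | succ k ih =>
    simp only [inf]
    rw [Finset.sum_add_distrib]
    have h1 : ∑ t ∈ T, (if q = t then (1 : ℝ) else 0) ≤ 1 := by
      rw [Finset.sum_ite_eq]
      split_ifs
      · exact le_rfl
      · exact zero_le_one
    have h2 : (1 : ℝ) ≤ ((P : ℝ) ^ 2 + 1) ^ k := one_le_pow₀ (by nlinarith [sq_nonneg (P : ℝ)])
    rw [pow_succ]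
    rcases h : S.dec q with _ | p
    · simp only [Finset.sum_const_zero, add_zero]
      nlinarith [sq_nonneg (P : ℝ)]
    · simp only []
      rw [← Finset.mul_sum, ← S.av_sum]
      have hp := S.isC_of_dec h
      have hlen := IsC.length S hp
      have hbd := hp.1
      have h3 : S.av p.1 A p.2.2.2 (fun q' => ∑ t ∈ T, S.inf A k q' t) ≤
          P * ((P : ℝ) ^ 2 + 1) ^ k := by
        refine (S.av_mono (g := fun _ => ((P : ℝ) ^ 2 + 1) ^ k) fun q' hq' => ih q' ?_).trans
          ((S.av_const_le (by positivity)).trans ?_)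
        · omega
        · refine mul_le_mul_of_nonneg_right ?_ (by positivity)
          have : S.bd p.1 p.2.2.2.length ≤ P := by omega
          exact_mod_cast this
      have h4 : ((p.2.1 : ℝ) + 1) ≤ P := by
        have : p.2.1 + 1 ≤ P := by omega
        exact_mod_cast this
      have h5 : ((p.2.1 : ℝ) + 1) * S.av p.1 A p.2.2.2 (fun q' => ∑ t ∈ T, S.inf A k q' t) ≤
          P * (P * ((P : ℝ) ^ 2 + 1) ^ k) :=
        mul_le_mul h4 h3 (S.av_nonneg fun q' => Finset.sum_nonneg fun t _ => S.inf_nonneg A k q' t)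
          (Nat.cast_nonneg _)
      nlinarith

/-- **Propagation of changes.** -/
theorem chi_le_inf (A : Orc) (Δ : Set Wd) (U : Finset Wd) (h0 : ∀ q ∈ Δ, 1 ≤ q.length)
    (h : ∀ q ∈ Δ, q ∈ U ∨ ∃ p, S.IsC q p ∧
      1 ≤ ((p.2.1 : ℝ) + 1) * S.av p.1 A p.2.2.2 (chi Δ)) (k : ℕ) (q : Wd)
    (hq : q.length < 2 ^ k) : chi Δ q ≤ ∑ t ∈ U, S.inf A k q t := by
  induction k generalizing q with
  | zero =>
    have h1 : q ∉ Δ := fun hqΔ => by
      have := h0 q hqΔ
      rw [pow_zero] at hq
      omega
    have h2 : chi Δ q = 0 := by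
      unfold chi
      rw [if_neg h1]
    rw [h2]
    exact Finset.sum_nonneg fun t _ => S.inf_nonneg A 0 q t
  | succ k ih =>
    by_cases hqΔ : q ∈ Δ
    · have h2 : chi Δ q = 1 := by
        unfold chi
        rw [if_pos hqΔ]
      rw [h2]
      rcases h q hqΔ with hU | ⟨p, hp, h1⟩
      · exact (S.one_le_inf A k q).trans
          (Finset.single_le_sum (fun t _ => S.inf_nonneg A (k + 1) q t) hU)
      · refine h1.trans ?_
        have hlen := IsC.length S hp
        have hbd := hp.1
        have h3 : S.av p.1 A p.2.2.2 (chi Δ) ≤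
            ∑ t ∈ U, S.av p.1 A p.2.2.2 fun q' => S.inf A k q' t := by
          rw [← S.av_sum]
          refine S.av_mono fun q' hq' => ih q' ?_
          rw [pow_succ] at hq
          omega
        refine (mul_le_mul_of_nonneg_left h3 (by positivity)).trans ?_
        rw [Finset.mul_sum]
        refine Finset.sum_le_sum fun t _ => ?_
        rw [inf, S.dec_eq hp]
        refine le_add_of_nonneg_left ?_
        split_ifs
        · exact zero_le_one
        · exact le_rfl
    · have h2 : chi Δ q = 0 := by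
        unfold chi
        rw [if_neg hqΔ]
      rw [h2]
      exact Finset.sum_nonneg fun t _ => S.inf_nonneg A (k + 1) q t

end Sys

end F6Core
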