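import Pool.Agent.Lib.MP_f6efc0_lc.Core.Fus
import Pool.Agent.Lib.MP_f6efc0_lc.Core.Inf

/-!
Oracles with prescribed values on a set of words, whose other code words follow a rule.
-/

namespace F6Core

namespace Sys

variable (S : Sys)

theorem dec_none {q : Wd} (h : ∀ p, ¬ S.IsC q p) : S.dec q = none := by
  unfold dec
  rw [dif_neg]
  rintro ⟨p, hp⟩
  exact h p hp

/-- The oracle with prescribed values `R`; elsewhere the code words follow `b`, and the other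
words have the value `false`. -/
noncomputable def ext (R : Wd → Option Bool) (b : ℝ → ℕ × ℕ × ℕ × Wd → Bool) : Orc :=
  build fun B q => (R q).getD ((S.dec q).elim false fun p => b (S.pr p.1 B p.2.2.2) p)

theorem ext_eq (R : Wd → Option Bool) (b : ℝ → ℕ × ℕ × ℕ × Wd → Bool) (q : Wd) :
    S.ext R b q =
      (R q).getD ((S.dec q).elim false fun p => b (S.pr p.1 (S.ext R b) p.2.2.2) p) := by
  unfold ext
  refine build_eq (rule := fun B q =>
    (R q).getD ((S.dec q).elim false fun p => b (S.pr p.1 B p.2.2.2) p)) (fun A B q h => ?_) q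
  rcases hR : R q with _ | v
  · rcases hd : S.dec q with _ | p
    · rfl
    · have hp := S.isC_of_dec hd
      have h1 := IsC.length S hp
      have h2 := hp.1
      simp only [Option.elim_some, Option.getD_none]
      rw [S.pr_congr' h (by omega)]
  · rfl

theorem ext_some {R : Wd → Option Bool} {b : ℝ → ℕ × ℕ × ℕ × Wd → Bool} {q : Wd} {v : Bool}
    (h : R q = some v) : S.ext R b q = v := by
  rw [ext_eq, h, Option.getD_some]

theorem ext_none {R : Wd → Option Bool} {b : ℝ → ℕ × ℕ × ℕ × Wd → Bool} {q : Wd}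
    (h : R q = none) (hd : ∀ p, ¬ S.IsC q p) : S.ext R b q = false := by
  rw [ext_eq, h, S.dec_none hd, Option.getD_none, Option.elim_none]

theorem ext_code {R : Wd → Option Bool} {b : ℝ → ℕ × ℕ × ℕ × Wd → Bool} {q : Wd}
    {p : ℕ × ℕ × ℕ × Wd} (h : R q = none) (hp : S.IsC q p) :
    S.ext R b q = b (S.pr p.1 (S.ext R b) p.2.2.2) p := by
  rw [ext_eq, h, S.dec_eq hp, Option.getD_none, Option.elim_some]

/-- A criterion for legality. -/
theorem legal_of {A₀ A' : Orc} {n : ℕ} (E : Finset Wd) (b : ℕ × ℕ × ℕ × Wd → Bool)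
    (h0 : 0 < n → S.Legal A₀) (hag : agree n A₀ A') (hE : E.card * 8 ≤ 2 ^ (n / 2))
    (hb : ∀ q p, S.IsC q p → n ≤ q.length → q ∉ E → A' q = b p)
    (hb' : ∀ v ρ, (∀ p, ¬ S.IsC (cw v ρ) p) → n ≤ (cw v ρ).length → cw v ρ ∉ E →
      A' (cw v ρ) = false)
    (h1 : ∀ p : ℕ × ℕ × ℕ × Wd, 1 / 2 + 1 / ((p.2.1 : ℝ) + 1) ≤ S.pr p.1 A' p.2.2.2 →
      b p = true)
    (h2 : ∀ p : ℕ × ℕ × ℕ × Wd, S.pr p.1 A' p.2.2.2 ≤ 1 / 2 - 1 / ((p.2.1 : ℝ) + 1) →
      b p = false) : S.Legal A' := by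
  have hcard : ∀ (v : Wd) (c : Bool), n ≤ 2 * v.length + 2 →
      (∀ ρ : Wd, ρ.length = v.length + 1 → cw v ρ ∉ E → A' (cw v ρ) = c) →
      ((wds (v.length + 1)).filter fun ρ => A' (cw v ρ) ≠ c).card * 8 ≤ 2 ^ (v.length + 1) := by
    intro v c hn hv
    have hcard : ((wds (v.length + 1)).filter fun ρ => A' (cw v ρ) ≠ c).card ≤ E.card := by
      refine Finset.card_le_card_of_injOn (fun ρ => cw v ρ) ?_ ?_
      · intro ρ hρ
        rw [Finset.mem_coe, Finset.mem_filter, mem_wds] at hρ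
        rw [Finset.mem_coe]
        by_contra hc
        exact hρ.2 (hv ρ hρ.1 hc)
      · intro ρ hρ ρ' hρ' h
        rw [Finset.mem_coe, Finset.mem_filter, mem_wds] at hρ hρ'
        exact (cw_inj h hρ.1 hρ'.1).2
    have hpow : 2 ^ (n / 2) ≤ 2 ^ (v.length + 1) := Nat.pow_le_pow_right two_pos (by omega)
    omega
  have hsame : ∀ (v : Wd) (c : Bool), 2 * v.length + 2 < n →
      ((wds (v.length + 1)).filter fun ρ => A' (cw v ρ) ≠ c) =
      ((wds (v.length + 1)).filter fun ρ => A₀ (cw v ρ) ≠ c) := by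
    intro v c hn
    refine Finset.filter_congr fun ρ hρ => ?_
    rw [hag _ (by rw [length_cw (mem_wds.1 hρ)]; exact hn)]
  have hfst : ∀ (j s m : ℕ) (x : Wd), S.bd j x.length ≤ m → ∃ b : Bool,
      ((wds ((vc j s m x).length + 1)).filter fun ρ => A' (cw (vc j s m x) ρ) ≠ b).card * 8 ≤
        2 ^ ((vc j s m x).length + 1) ∧
      (1 / 2 + 1 / ((s : ℝ) + 1) ≤ S.pr j A' x → b = true) ∧
      (S.pr j A' x ≤ 1 / 2 - 1 / ((s : ℝ) + 1) → b = false) := by
    intro j s m x hm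
    have hl := length_vc j s m x
    rcases lt_or_ge (2 * (vc j s m x).length + 2) n with hn | hn
    · obtain ⟨c, hc1, hc2, hc3⟩ := (h0 (by omega)).1 j s m x hm
      have hpr : S.pr j A₀ x = S.pr j A' x := S.pr_congr' hag (by omega)
      refine ⟨c, ?_, by rw [← hpr]; exact hc2, by rw [← hpr]; exact hc3⟩
      rw [hsame _ c hn]
      exact hc1
    · refine ⟨b (j, s, m, x), hcard _ _ hn fun ρ hρ hc => ?_, h1 (j, s, m, x), h2 (j, s, m, x)⟩
      exact hb _ (j, s, m, x) ⟨hm, ρ, hρ, rfl⟩ (by rw [length_cw hρ]; exact hn) hc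
  refine ⟨hfst, fun v => ?_⟩
  by_cases hv : ∃ (j s m : ℕ) (x : Wd), S.bd j x.length ≤ m ∧ v = vc j s m x
  · obtain ⟨j, s, m, x, hm, rfl⟩ := hv
    obtain ⟨c, hc, -⟩ := hfst j s m x hm
    exact ⟨c, hc⟩
  · rcases lt_or_ge (2 * v.length + 2) n with hn | hn
    · obtain ⟨c, hc⟩ := (h0 (by omega)).2 v
      refine ⟨c, ?_⟩
      rw [hsame _ c hn]
      exact hc
    · refine ⟨false, hcard _ _ hn fun ρ hρ hc => hb' v ρ (fun p hp => hv ?_) ?_ hc⟩
      · obtain ⟨h3, ρ', h4, h5⟩ := hp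
        exact ⟨p.1, p.2.1, p.2.2.1, p.2.2.2, h3, (cw_inj h5 hρ h4).1⟩
      · rw [length_cw hρ]
        exact hn

/-- Words of length at most `P`. -/
def wle (P : ℕ) : Finset Wd := (Finset.range (P + 1)).biUnion wds

theorem mem_wle {P : ℕ} {q : Wd} : q ∈ wle P ↔ q.length ≤ P := by
  unfold wle
  rw [Finset.mem_biUnion]
  constructor
  · rintro ⟨a, ha, hq⟩
    rw [mem_wds] at hq
    rw [Finset.mem_range] at ha
    omega
  · intro h
    exact ⟨q.length, Finset.mem_range.2 (by omega), mem_wds.2 rfl⟩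

/-- The weight of a word. -/
noncomputable def wt (j : ℕ) (A : Orc) (z : Wd) (P : ℕ) (t : Wd) : ℝ :=
  S.av j A z fun q => S.inf A (Nat.log 2 P + 1) q t

/-- The heavy words. -/
noncomputable def heavy (j : ℕ) (A : Orc) (z : Wd) (P : ℕ) : Finset Wd :=
  (wle P).filter fun t => 1 / (4 * (P : ℝ)) ≤ S.wt j A z P t

theorem card_heavy {j : ℕ} {A : Orc} {z : Wd} {P : ℕ} (hP : S.bd j z.length ≤ P) (hP0 : 0 < P) :
    (S.heavy j A z P).card ≤ 4 * P ^ 2 * (P ^ 2 + 1) ^ (Nat.log 2 P + 1) := by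
  have hP0' : (0 : ℝ) < P := by exact_mod_cast hP0
  have h1 : ∑ t ∈ wle P, S.wt j A z P t ≤ P * ((P : ℝ) ^ 2 + 1) ^ (Nat.log 2 P + 1) := by
    unfold wt
    rw [← S.av_sum]
    refine (S.av_mono (g := fun _ => ((P : ℝ) ^ 2 + 1) ^ (Nat.log 2 P + 1)) fun q hq =>
      S.sum_inf_le A P _ _ q (hq.trans hP)).trans ((S.av_const_le (by positivity)).trans ?_)
    refine mul_le_mul_of_nonneg_right ?_ (by positivity)
    exact_mod_cast hP
  have h2 : ((S.heavy j A z P).card : ℝ) * (1 / (4 * (P : ℝ))) ≤ ∑ t ∈ wle P, S.wt j A z P t := by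
    rw [← nsmul_eq_mul]
    refine (Finset.card_nsmul_le_sum _ _ _ fun t ht => (Finset.mem_filter.1 ht).2).trans ?_
    refine Finset.sum_le_sum_of_subset_of_nonneg (Finset.filter_subset _ _) fun t _ _ => ?_
    exact S.av_nonneg fun q => S.inf_nonneg A _ q t
  have h3 := h2.trans h1
  rw [mul_one_div, div_le_iff₀ (by positivity)] at h3
  have h4 : ((S.heavy j A z P).card : ℝ) ≤ 4 * (P : ℝ) ^ 2 * ((P : ℝ) ^ 2 + 1) ^
      (Nat.log 2 P + 1) := by
    refine h3.trans (le_of_eq ?_)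
    ring
  exact_mod_cast h4

/-- Changes at light words change the acceptance probability by at most `1/4`. -/
theorem pr_change {j : ℕ} {A A' : Orc} {z : Wd} {P : ℕ} (hP : S.bd j z.length ≤ P)
    (hP0 : 0 < P) (U : Finset Wd) (hU : ∀ t ∈ U, S.wt j A z P t ≤ 1 / (4 * (P : ℝ)))
    (hUc : U.card ≤ P) (h0 : ∀ q, A' q ≠ A q → 1 ≤ q.length)
    (h : ∀ q, A' q ≠ A q → q ∈ U ∨ ∃ p, S.IsC q p ∧
      1 / ((p.2.1 : ℝ) + 1) ≤ |S.pr p.1 A' p.2.2.2 - S.pr p.1 A p.2.2.2|) :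
    |S.pr j A' z - S.pr j A z| ≤ 1 / 4 := by
  have hP0' : (0 : ℝ) < P := by exact_mod_cast hP0
  refine (S.pr_sub_le j A A' z).trans ?_
  have h1 : ∀ q : Wd, q.length ≤ S.bd j z.length → chi {q | A' q ≠ A q} q ≤
      ∑ t ∈ U, S.inf A (Nat.log 2 P + 1) q t := by
    intro q hq
    refine S.chi_le_inf A _ U (fun q hq => h0 q hq) (fun q hq => ?_) _ q
      ((hq.trans hP).trans_lt (Nat.lt_pow_succ_log_self one_lt_two P))
    rcases h q hq with h2 | ⟨p, hp, h2⟩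
    · exact Or.inl h2
    · refine Or.inr ⟨p, hp, ?_⟩
      have h3 := h2.trans (S.pr_sub_le p.1 A A' p.2.2.2)
      rw [div_le_iff₀ (by positivity), mul_comm] at h3
      exact h3
  refine (S.av_mono h1).trans ?_
  rw [S.av_sum]
  have h2 : ∑ t ∈ U, S.wt j A z P t ≤ ∑ _t ∈ U, 1 / (4 * (P : ℝ)) := Finset.sum_le_sum hU
  rw [Finset.sum_const, nsmul_eq_mul] at h2
  have h3 : (U.card : ℝ) * (1 / (4 * (P : ℝ))) ≤ P * (1 / (4 * (P : ℝ))) := by
    refine mul_le_mul_of_nonneg_right ?_ (by positivity)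
    exact_mod_cast hUc
  have h4 : (P : ℝ) * (1 / (4 * (P : ℝ))) = 1 / 4 := by
    field_simp
  rw [h4] at h3
  exact h2.trans h3

end Sys

end F6Core
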