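import Pool.Agent.Lib.MP_f6efc0_lc.Core.Sys

/-!
Limits of sequences of oracles and recursion on the length.
-/

namespace F6Core

open Classical in
/-- **Fusion.** -/
theorem fusion (Inv : ℕ → Orc → Prop) (Req : ℕ → ℕ → Orc → Prop) (N₀ : ℕ) (A₀ : Orc)
    (h0 : Inv N₀ A₀)
    (step : ∀ t N A, Inv N A → ∃ N' A', N < N' ∧ agree N A A' ∧ Inv N' A' ∧ Req t N' A') :
    ∃ A : Orc, (∀ t, ∃ N A', Inv N A' ∧ Req t N A' ∧ agree N A' A) ∧
      ∀ M, ∃ N A', M ≤ N ∧ Inv N A' ∧ agree N A' A := by
  choose! fN fA h1 h2 h3 h4 using step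
  let s : ℕ → ℕ × Orc := fun t => Nat.rec (N₀, A₀) (fun t p => (fN t p.1 p.2, fA t p.1 p.2)) t
  have hs : ∀ t, s (t + 1) = (fN t (s t).1 (s t).2, fA t (s t).1 (s t).2) := fun t => rfl
  have hinv : ∀ t, Inv (s t).1 (s t).2 := by
    intro t
    induction t with
    | zero => exact h0
    | succ t ih => rw [hs]; exact h3 t _ _ ih
  have hlt : ∀ t, (s t).1 < (s (t + 1)).1 := fun t => by rw [hs]; exact h1 t _ _ (hinv t)
  have hmono : StrictMono fun t => (s t).1 := strictMono_nat_of_lt_succ hlt
  have hag1 : ∀ t, agree (s t).1 (s t).2 (s (t + 1)).2 := fun t => by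
    rw [hs]; exact h2 t _ _ (hinv t)
  have hag : ∀ t u, t ≤ u → agree (s t).1 (s t).2 (s u).2 := by
    intro t u htu
    induction u, htu using Nat.le_induction with
    | base => exact fun q _ => rfl
    | succ u htu ih => exact ih.trans ((hag1 u).mono (hmono.monotone htu))
  have hge : ∀ t, t ≤ (s t).1 := fun t => hmono.id_le t
  let A : Orc := fun q => (s (q.length + 1)).2 q
  have hA : ∀ t, agree (s t).1 (s t).2 A := by
    intro t q hq
    change (s t).2 q = (s (q.length + 1)).2 q
    rcases le_total t (q.length + 1) with h | h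
    · exact hag _ _ h q hq
    · exact (hag _ _ h q ((Nat.lt_succ_self _).trans_le (hge _))).symm
  refine ⟨A, fun t => ⟨(s (t + 1)).1, (s (t + 1)).2, hinv (t + 1), ?_, hA (t + 1)⟩,
    fun M => ⟨(s M).1, (s M).2, hge M, hinv M, hA M⟩⟩
  rw [hs]
  exact h4 t _ _ (hinv t)

/-- An oracle defined by recursion on the length. -/
noncomputable def build (rule : Orc → Wd → Bool) : Orc :=
  (measure (List.length : Wd → ℕ)).wf.fix fun q rec =>
    rule (fun q' => if h : q'.length < q.length then rec q' h else false) q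

theorem build_eq {rule : Orc → Wd → Bool}
    (hr : ∀ (A B : Orc) (q : Wd), agree q.length A B → rule A q = rule B q) (q : Wd) :
    build rule q = rule (build rule) q := by
  unfold build
  rw [WellFounded.fix_eq]
  refine hr _ _ q fun q' hq' => ?_
  rw [dif_pos hq']

end F6Core
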