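import Pool.Agent.Lib.MP_f6efc0_lc.Core.Ext
import Pool.Agent.Lib.MP_f6efc0_lc.Core.Ar

/-!
One stage of the construction: a machine `j` and a reduction `i` are defeated.
-/

namespace F6Core

/-- The word `0^n`. -/
def zs (n : ℕ) : Wd := List.replicate n false

theorem length_zs (n : ℕ) : (zs n).length = n := List.length_replicate

/-- The words of length `n + 1` of machine `j`. -/
def yes (A : Orc) (j n : ℕ) : Finset Wd := (wds (n + 1)).filter fun y => A (yw j y) = true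

theorem mem_yes {A : Orc} {j n : ℕ} {y : Wd} :
    y ∈ yes A j n ↔ y.length = n + 1 ∧ A (yw j y) = true := by
  unfold yes
  rw [Finset.mem_filter, mem_wds]

namespace Sys

variable (S : Sys)

/-- The machine `j` is defeated by the reduction `i` at `x`, or its acceptance probability at
the value of the reduction is small and positive. -/
def Win (j i : ℕ) (A : Orc) (x : Wd) : Prop :=
  (yes A j x.length = ∅ ∧ 0 < S.pr j A (S.F i A x)) ∨
  (2 ^ x.length < (yes A j x.length).card ∧ S.pr j A (S.F i A x) = 0) ∨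
  (0 < S.pr j A (S.F i A x) ∧ S.pr j A (S.F i A x) ≤ 1 / 2)

theorem bd_comp (j i : ℕ) : ∃ C, ∀ n, 2 ≤ n → S.bd j (S.bd i n) + S.bd i n + 1 ≤ n ^ C := by
  obtain ⟨d, hd⟩ := S.bd_poly j
  obtain ⟨c, hc⟩ := S.bd_poly i
  refine ⟨(c + 1) * d + d + c + 6, fun n hn => ?_⟩
  have key : ∀ a : ℕ, a ≤ n ^ a := fun a =>
    Nat.lt_two_pow_self.le.trans (Nat.pow_le_pow_left hn a)
  have up : ∀ a b : ℕ, a ≤ b → n ^ a ≤ n ^ b := fun a b h =>
    Nat.pow_le_pow_right (by omega) h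
  have h1 : S.bd i n ≤ n ^ (c + 1) := by
    refine (hc n).trans ?_
    have := key c
    rw [pow_succ]
    nlinarith
  have h2 : S.bd j (S.bd i n) ≤ n ^ ((c + 1) * d) + n ^ d := by
    refine (hd _).trans (Nat.add_le_add ?_ (key d))
    rw [pow_mul]
    exact Nat.pow_le_pow_left h1 d
  have h3 := up ((c + 1) * d) ((c + 1) * d + d + c + 4) (by omega)
  have h4 := up d ((c + 1) * d + d + c + 4) (by omega)
  have h5 := up (c + 1) ((c + 1) * d + d + c + 4) (by omega)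
  have h6 : 1 ≤ n ^ ((c + 1) * d + d + c + 4) := Nat.one_le_pow _ _ (by omega)
  have h7 : n ^ ((c + 1) * d + d + c + 6) = n ^ ((c + 1) * d + d + c + 4) * n ^ 2 := by
    rw [← pow_add]
  have h8 : 4 ≤ n ^ 2 := by nlinarith
  rw [h7]
  nlinarith

/-- The first oracle of a stage. -/
noncomputable def A0 (A : Orc) (N : ℕ) : Orc :=
  S.ext (fun q => if q.length < N then some (A q) else none) fun r _ => decide (1 / 2 < r)

theorem A0_lt {A : Orc} {N : ℕ} {q : Wd} (h : q.length < N) : S.A0 A N q = A q :=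
  S.ext_some (by rw [if_pos h])

theorem A0_code {A : Orc} {N : ℕ} {q : Wd} (h : N ≤ q.length) {p : ℕ × ℕ × ℕ × Wd}
    (hp : S.IsC q p) : S.A0 A N q = decide (1 / 2 < S.pr p.1 (S.A0 A N) p.2.2.2) :=
  S.ext_code (by rw [if_neg (not_lt.2 h)]) hp

theorem A0_none {A : Orc} {N : ℕ} {q : Wd} (h : N ≤ q.length) (hp : ∀ p, ¬ S.IsC q p) :
    S.A0 A N q = false :=
  S.ext_none (by rw [if_neg (not_lt.2 h)]) hp

theorem A0_agree (A : Orc) (N : ℕ) : agree N A (S.A0 A N) := fun _ hq => (S.A0_lt hq).symm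

theorem A0_legal {A : Orc} {N : ℕ} (h : 0 < N → S.Legal A) : S.Legal (S.A0 A N) := by
  refine S.legal_of (n := N) ∅ (fun p => decide (1 / 2 < S.pr p.1 (S.A0 A N) p.2.2.2)) h
    (S.A0_agree A N) (by simp) (fun q p hp hq _ => S.A0_code hq hp)
    (fun v ρ hp hq _ => S.A0_none hq hp) (fun p hp => ?_) (fun p hp => ?_)
  · rw [decide_eq_true_eq]
    have : (0 : ℝ) < 1 / ((p.2.1 : ℝ) + 1) := by positivity
    linarith
  · rw [decide_eq_false_iff_not, not_lt]
    have : (0 : ℝ) < 1 / ((p.2.1 : ℝ) + 1) := by positivity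
    linarith

open Classical in
/-- The second oracle of a stage. -/
noncomputable def A1 (A₀ : Orc) (n j : ℕ) (H : Finset Wd) : Orc :=
  S.ext (fun q => if q.length < n ∨ q ∈ H then some (A₀ q) else
    if ∃ y : Wd, y.length = n + 1 ∧ q = yw j y then some true else none)
    fun r _ => decide (1 / 2 < r)

theorem A1_old {A₀ : Orc} {n j : ℕ} {H : Finset Wd} {q : Wd} (h : q.length < n ∨ q ∈ H) :
    S.A1 A₀ n j H q = A₀ q :=
  S.ext_some (by rw [if_pos h])

theorem A1_yw {A₀ : Orc} {n j : ℕ} {H : Finset Wd} {y : Wd} (hy : y.length = n + 1)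
    (h : yw j y ∉ H) : S.A1 A₀ n j H (yw j y) = true := by
  refine S.ext_some ?_
  rw [if_neg, if_pos ⟨y, hy, rfl⟩]
  rw [not_or, length_yw]
  exact ⟨by omega, h⟩

theorem A1_yw' {A₀ : Orc} {n j j' : ℕ} {H : Finset Wd} {y : Wd}
    (h : ¬ (j' = j ∧ y.length = n + 1)) (h0 : A₀ (yw j' y) = false) :
    S.A1 A₀ n j H (yw j' y) = false := by
  by_cases h1 : (yw j' y).length < n ∨ yw j' y ∈ H
  · rw [S.A1_old h1, h0]
  · refine S.ext_none ?_ (S.not_isC_yw j' y)
    rw [if_neg h1, if_neg]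
    rintro ⟨y', hy', h2⟩
    obtain ⟨h3, h4⟩ := yw_inj h2
    exact h ⟨h3, by rw [h4]; exact hy'⟩

theorem A1_code {A₀ : Orc} {n j : ℕ} {H : Finset Wd} {q : Wd} (h : n ≤ q.length) (hH : q ∉ H)
    {p : ℕ × ℕ × ℕ × Wd} (hp : S.IsC q p) :
    S.A1 A₀ n j H q = decide (1 / 2 < S.pr p.1 (S.A1 A₀ n j H) p.2.2.2) := by
  refine S.ext_code ?_ hp
  rw [if_neg (by rw [not_or]; exact ⟨not_lt.2 h, hH⟩), if_neg]
  rintro ⟨y, -, rfl⟩
  exact S.not_isC_yw j y p hp

theorem A1_none {A₀ : Orc} {n j : ℕ} {H : Finset Wd} {v ρ : Wd} (h : n ≤ (cw v ρ).length)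
    (hH : cw v ρ ∉ H) (hp : ∀ p, ¬ S.IsC (cw v ρ) p) : S.A1 A₀ n j H (cw v ρ) = false := by
  refine S.ext_none ?_ hp
  rw [if_neg (by rw [not_or]; exact ⟨not_lt.2 h, hH⟩), if_neg]
  rintro ⟨y, -, hy⟩
  exact yw_ne_cw _ _ _ _ hy.symm

theorem A1_legal {A₀ : Orc} {n j : ℕ} {H : Finset Wd} (h : S.Legal A₀)
    (hH : H.card * 8 ≤ 2 ^ (n / 2)) : S.Legal (S.A1 A₀ n j H) := by
  refine S.legal_of (n := n) H (fun p => decide (1 / 2 < S.pr p.1 (S.A1 A₀ n j H) p.2.2.2))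
    (fun _ => h) (fun q hq => (S.A1_old (Or.inl hq)).symm) hH
    (fun q p hp hq hH => S.A1_code hq hH hp) (fun v ρ hp hq hH => S.A1_none hq hH hp)
    (fun p hp => ?_) (fun p hp => ?_)
  · rw [decide_eq_true_eq]
    have : (0 : ℝ) < 1 / ((p.2.1 : ℝ) + 1) := by positivity
    linarith
  · rw [decide_eq_false_iff_not, not_lt]
    have : (0 : ℝ) < 1 / ((p.2.1 : ℝ) + 1) := by positivity
    linarith

open Classical in
/-- The rule of the third oracle: the values of the code words are changed only if the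
acceptance probability has moved. -/
noncomputable def b2 (A₀ : Orc) (r : ℝ) (p : ℕ × ℕ × ℕ × Wd) : Bool :=
  if 1 / ((p.2.1 : ℝ) + 1) ≤ |r - S.pr p.1 A₀ p.2.2.2| then decide (1 / 2 < r)
    else decide (1 / 2 < S.pr p.1 A₀ p.2.2.2)

open Classical in
/-- The third oracle of a stage. -/
noncomputable def A2 (A₀ A₁ : Orc) (n : ℕ) (H Q : Finset Wd) : Orc :=
  S.ext (fun q => if q.length < n ∨ q ∈ H then some (A₀ q) else
    if q ∈ Q then some (A₁ q) else none) (S.b2 A₀)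

theorem A2_old {A₀ A₁ : Orc} {n : ℕ} {H Q : Finset Wd} {q : Wd} (h : q.length < n ∨ q ∈ H) :
    S.A2 A₀ A₁ n H Q q = A₀ q :=
  S.ext_some (by rw [if_pos h])

theorem A2_Q {A₀ A₁ : Orc} {n : ℕ} {H Q : Finset Wd} {q : Wd} (h : ¬ (q.length < n ∨ q ∈ H))
    (hQ : q ∈ Q) : S.A2 A₀ A₁ n H Q q = A₁ q :=
  S.ext_some (by rw [if_neg h, if_pos hQ])

theorem A2_none {A₀ A₁ : Orc} {n : ℕ} {H Q : Finset Wd} {q : Wd}
    (h : ¬ (q.length < n ∨ q ∈ H)) (hQ : q ∉ Q) (hp : ∀ p, ¬ S.IsC q p) :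
    S.A2 A₀ A₁ n H Q q = false :=
  S.ext_none (by rw [if_neg h, if_neg hQ]) hp

theorem A2_code {A₀ A₁ : Orc} {n : ℕ} {H Q : Finset Wd} {q : Wd}
    (h : ¬ (q.length < n ∨ q ∈ H)) (hQ : q ∉ Q) {p : ℕ × ℕ × ℕ × Wd} (hp : S.IsC q p) :
    S.A2 A₀ A₁ n H Q q = S.b2 A₀ (S.pr p.1 (S.A2 A₀ A₁ n H Q) p.2.2.2) p :=
  S.ext_code (by rw [if_neg h, if_neg hQ]) hp

theorem A2_legal {A₀ A₁ : Orc} {n : ℕ} {H Q : Finset Wd} (h : S.Legal A₀)
    (hH : (H ∪ Q).card * 8 ≤ 2 ^ (n / 2)) : S.Legal (S.A2 A₀ A₁ n H Q) := by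
  refine S.legal_of (n := n) (H ∪ Q)
    (fun p => S.b2 A₀ (S.pr p.1 (S.A2 A₀ A₁ n H Q) p.2.2.2) p)
    (fun _ => h) (fun q hq => (S.A2_old (Or.inl hq)).symm) hH
    (fun q p hp hq hHQ => ?_) (fun v ρ hp hq hHQ => ?_) (fun p hp => ?_) (fun p hp => ?_)
  · rw [Finset.mem_union, not_or] at hHQ
    exact S.A2_code (by rw [not_or]; exact ⟨not_lt.2 hq, hHQ.1⟩) hHQ.2 hp
  · rw [Finset.mem_union, not_or] at hHQ
    exact S.A2_none (by rw [not_or]; exact ⟨not_lt.2 hq, hHQ.1⟩) hHQ.2 hp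
  · have h1 : (0 : ℝ) < 1 / ((p.2.1 : ℝ) + 1) := by positivity
    unfold b2
    split_ifs with h2
    · rw [decide_eq_true_eq]
      linarith
    · rw [decide_eq_true_eq]
      rw [not_le, abs_lt] at h2
      linarith [h2.2]
  · have h1 : (0 : ℝ) < 1 / ((p.2.1 : ℝ) + 1) := by positivity
    unfold b2
    split_ifs with h2
    · rw [decide_eq_false_iff_not, not_lt]
      linarith
    · rw [decide_eq_false_iff_not, not_lt]
      rw [not_le, abs_lt] at h2
      linarith [h2.1]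

/-- **One stage.** -/
theorem stageA (j i N : ℕ) (A : Orc) (hA : 0 < N → S.Legal A) : ∃ (n : ℕ) (A' : Orc), N ≤ n ∧
    agree N A A' ∧ S.Legal A' ∧
    (∀ (j' : ℕ) (y : Wd), N ≤ (yw j' y).length → A' (yw j' y) = true →
      j' = j ∧ y.length = n + 1) ∧ S.Win j i A' (zs n) := by
  classical
  obtain ⟨C, hC⟩ := S.bd_comp j i
  obtain ⟨n, hNn, hn2, hn⟩ := ar C N
  set P := S.bd j (S.bd i n) + S.bd i n + 1 with hPdef
  have hP0 : 0 < P := by omega
  have hnoise := hn P (hC n hn2)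
  set A₀ := S.A0 A N with hA₀
  have hL₀ : S.Legal A₀ := S.A0_legal hA
  have hag₀ : agree N A A₀ := S.A0_agree A N
  have hyw₀ : ∀ (j' : ℕ) (y : Wd), N ≤ (yw j' y).length → A₀ (yw j' y) = false :=
    fun j' y h => S.A0_none h (S.not_isC_yw j' y)
  have h0code : ∀ (q : Wd) (p : ℕ × ℕ × ℕ × Wd), N ≤ q.length → S.IsC q p →
      A₀ q = decide (1 / 2 < S.pr p.1 A₀ p.2.2.2) := fun q p h hp => S.A0_code h hp
  have h0none : ∀ q : Wd, N ≤ q.length → (∀ p, ¬ S.IsC q p) → A₀ q = false :=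
    fun q h hp => S.A0_none h hp
  clear_value A₀
  set z := S.F i A₀ (zs n) with hz
  have hzP : S.bd j z.length ≤ P := by
    have h1 : z.length ≤ S.bd i n := by
      have := S.outF i A₀ (zs n)
      rwa [length_zs] at this
    have h2 := S.bd_mono j h1
    omega
  by_cases h0 : 0 < S.pr j A₀ z
  · refine ⟨n, A₀, hNn, hag₀, hL₀, fun j' y h1 h2 => ?_, Or.inl ⟨?_, ?_⟩⟩
    · rw [hyw₀ j' y h1] at h2
      exact absurd h2 (by decide)
    · rw [length_zs, Finset.eq_empty_iff_forall_notMem]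
      intro y hy
      rw [mem_yes] at hy
      have := hyw₀ j y (by rw [length_yw]; omega)
      rw [this] at hy
      exact absurd hy.2 (by decide)
    · exact h0
  have h0' : S.pr j A₀ z = 0 := le_antisymm (not_lt.1 h0) (S.pr_nonneg j A₀ z)
  -- the fixed words
  set H := S.askF i A₀ (zs n) ∪ S.heavy j A₀ z P with hH
  have hHcard : H.card ≤ P + 4 * P ^ 2 * (P ^ 2 + 1) ^ (Nat.log 2 P + 1) := by
    refine (Finset.card_union_le _ _).trans (Nat.add_le_add ?_ (S.card_heavy hzP hP0))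
    refine (S.cardF i A₀ (zs n)).trans ?_
    rw [length_zs]
    omega
  have hX : P ≤ 4 * P ^ 2 * (P ^ 2 + 1) ^ (Nat.log 2 P + 1) := by
    have h1 : 1 ≤ (P ^ 2 + 1) ^ (Nat.log 2 P + 1) := Nat.one_le_pow _ _ (by positivity)
    have h2 : P ≤ 4 * P ^ 2 := by nlinarith
    calc P ≤ 4 * P ^ 2 := h2
      _ = 4 * P ^ 2 * 1 := (mul_one _).symm
      _ ≤ _ := Nat.mul_le_mul_left _ h1
  have hX2 : 8 * P ^ 2 * (P ^ 2 + 1) ^ (Nat.log 2 P + 1) =
      2 * (4 * P ^ 2 * (P ^ 2 + 1) ^ (Nat.log 2 P + 1)) := by ring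
  rw [hX2] at hnoise
  have hHn : (H.card + P) * 8 ≤ 2 ^ (n / 2) := by omega
  have hFz : ∀ B : Orc, (∀ q ∈ H, B q = A₀ q) → S.F i B (zs n) = z := fun B hB =>
    S.locF i A₀ B (zs n) fun q hq => (hB q (Finset.mem_union_left _ hq)).symm
  set A₁ := S.A1 A₀ n j H with hA₁
  have hL₁ : S.Legal A₁ := S.A1_legal hL₀ (by omega)
  have hF₁ : S.F i A₁ (zs n) = z := hFz A₁ fun q hq => S.A1_old (Or.inr hq)
  have hyw₁ : ∀ (j' : ℕ) (y : Wd), N ≤ (yw j' y).length → A₁ (yw j' y) = true →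
      j' = j ∧ y.length = n + 1 := by
    intro j' y h1 h2
    by_contra h3
    have := S.A1_yw' (H := H) h3 (hyw₀ j' y h1)
    rw [← hA₁, h2] at this
    exact absurd this (by decide)
  have h1old : ∀ q : Wd, (q.length < n ∨ q ∈ H) → A₁ q = A₀ q := fun q h => S.A1_old h
  have h1yw : ∀ y : Wd, y.length = n + 1 → yw j y ∉ H → A₁ (yw j y) = true :=
    fun y h h' => S.A1_yw h h'
  clear_value A₁
  have hag₁ : agree n A₀ A₁ := fun q hq => (h1old q (Or.inl hq)).symm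
  by_cases h1 : 0 < S.pr j A₁ z
  swap
  · -- the acceptance probability is zero
    have h1' : S.pr j A₁ z = 0 := le_antisymm (not_lt.1 h1) (S.pr_nonneg j A₁ z)
    refine ⟨n, A₁, hNn, hag₀.trans (hag₁.mono hNn), hL₁, hyw₁, Or.inr (Or.inl ⟨?_, ?_⟩)⟩
    · rw [length_zs]
      have h2 : ((wds (n + 1)).filter fun y => ¬ A₁ (yw j y) = true).card ≤ H.card := by
        refine Finset.card_le_card_of_injOn (fun y => yw j y) ?_ ?_
        · intro y hy
          rw [Finset.mem_coe, Finset.mem_filter, mem_wds] at hy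
          rw [Finset.mem_coe]
          by_contra hc
          exact hy.2 (h1yw y hy.1 hc)
        · intro y _ y' _ h
          exact (yw_inj h).2
      have h3 := Finset.card_filter_add_card_filter_not (s := wds (n + 1))
        (fun y => A₁ (yw j y) = true)
      rw [card_wds] at h3
      have h4 : 2 ^ (n / 2) ≤ 2 ^ n := Nat.pow_le_pow_right two_pos (Nat.div_le_self n 2)
      have h5 : 2 ^ (n + 1) = 2 * 2 ^ n := by rw [pow_succ, mul_comm]
      have h6 : 0 < 2 ^ n := by positivity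
      unfold yes
      omega
    · rw [hF₁]
      exact h1'
  by_cases h2 : S.pr j A₁ z ≤ 1 / 2
  · refine ⟨n, A₁, hNn, hag₀.trans (hag₁.mono hNn), hL₁, hyw₁, Or.inr (Or.inr ?_)⟩
    rw [hF₁]
    exact ⟨h1, h2⟩
  -- the third oracle
  obtain ⟨r, hr, hacc⟩ := S.pr_pos_iff.1 h1
  set Q := S.askA j A₁ z r with hQ
  have hQc : Q.card ≤ P := (S.cardA j A₁ z r hr).trans hzP
  set A₂ := S.A2 A₀ A₁ n H Q with hA₂
  have hL₂ : S.Legal A₂ := by
    refine S.A2_legal hL₀ ?_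
    have := Finset.card_union_le H Q
    omega
  have h2old : ∀ q : Wd, (q.length < n ∨ q ∈ H) → A₂ q = A₀ q := fun q h => S.A2_old h
  have h2Q : ∀ q : Wd, ¬ (q.length < n ∨ q ∈ H) → q ∈ Q → A₂ q = A₁ q := fun q h h' => S.A2_Q h h'
  have h2none : ∀ q : Wd, ¬ (q.length < n ∨ q ∈ H) → q ∉ Q → (∀ p, ¬ S.IsC q p) →
      A₂ q = false := fun q h h' hp => S.A2_none h h' hp
  have h2code : ∀ (q : Wd) (p : ℕ × ℕ × ℕ × Wd), ¬ (q.length < n ∨ q ∈ H) → q ∉ Q → S.IsC q p →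
      A₂ q = S.b2 A₀ (S.pr p.1 A₂ p.2.2.2) p := fun q p h h' hp => S.A2_code h h' hp
  clear_value A₂
  have hF₂ : S.F i A₂ (zs n) = z := hFz A₂ fun q hq => h2old q (Or.inr hq)
  have hag₂ : agree n A₀ A₂ := fun q hq => (h2old q (Or.inl hq)).symm
  have hacc₂ : S.acc j A₂ z r = true := by
    rw [← hacc]
    refine S.locA j A₁ A₂ z r hr fun q hq => ?_
    by_cases h3 : q.length < n ∨ q ∈ H
    · rw [h1old q h3, h2old q h3]
    · rw [h2Q q h3 hq]
  have hpos₂ : 0 < S.pr j A₂ z := S.pr_pos_iff.2 ⟨r, hr, hacc₂⟩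
  have hyw₂ : ∀ (j' : ℕ) (y : Wd), N ≤ (yw j' y).length → A₂ (yw j' y) = true →
      j' = j ∧ y.length = n + 1 := by
    intro j' y h3 h4
    by_cases h5 : (yw j' y).length < n ∨ yw j' y ∈ H
    · rw [h2old _ h5, hyw₀ j' y h3] at h4
      exact absurd h4 (by decide)
    · by_cases h6 : yw j' y ∈ Q
      · rw [h2Q _ h5 h6] at h4
        exact hyw₁ j' y h3 h4
      · rw [h2none _ h5 h6 (S.not_isC_yw j' y)] at h4
        exact absurd h4 (by decide)
  have hchange : |S.pr j A₂ z - S.pr j A₀ z| ≤ 1 / 4 := by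
    have hlen : ∀ q, A₂ q ≠ A₀ q → ¬ (q.length < n ∨ q ∈ H) := by
      intro q h3 h4
      exact h3 (h2old q h4)
    refine S.pr_change hzP hP0 (Q \ H) (fun t ht => ?_) ?_ (fun q hq => ?_) (fun q hq => ?_)
    · rw [Finset.mem_sdiff] at ht
      by_contra h3
      refine ht.2 (Finset.mem_union_right _ (Finset.mem_filter.2 ⟨mem_wle.2 ?_, (not_le.1 h3).le⟩))
      exact (S.lenA j A₁ z r hr t ht.1).trans hzP
    · exact (Finset.card_le_card Finset.sdiff_subset).trans hQc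
    · have := hlen q hq
      rw [not_or] at this
      omega
    · have h3 := hlen q hq
      by_cases h4 : q ∈ Q
      · refine Or.inl (Finset.mem_sdiff.2 ⟨h4, fun h5 => h3 (Or.inr h5)⟩)
      · right
        have h3' : N ≤ q.length := by
          rw [not_or] at h3
          omega
        by_cases h5 : ∃ p, S.IsC q p
        · obtain ⟨p, hp⟩ := h5
          refine ⟨p, hp, ?_⟩
          by_contra h6
          refine hq ?_
          rw [h2code q p h3 h4 hp, h0code q p h3' hp]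
          unfold b2
          rw [if_neg h6]
        · push Not at h5
          exfalso
          refine hq ?_
          rw [h2none q h3 h4 h5, h0none q h3' h5]
  refine ⟨n, A₂, hNn, hag₀.trans (hag₂.mono hNn), hL₂, hyw₂, Or.inr (Or.inr ?_)⟩
  rw [hF₂]
  refine ⟨hpos₂, ?_⟩
  rw [h0', sub_zero, abs_of_pos hpos₂] at hchange
  linarith

end Sys

end F6Core
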