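import Mathlib

/-!
Polynomial time oracle computations, abstractly; codes of computations; legal oracles.
-/

namespace F6Core

/-- Words. -/
abbrev Wd := List Bool

/-- Oracles. -/
abbrev Orc := Wd → Bool

/-- The words of length `n`. -/
def wds (n : ℕ) : Finset Wd := Finset.univ.image fun f : Fin n → Bool => List.ofFn f

theorem mem_wds {n : ℕ} {r : Wd} : r ∈ wds n ↔ r.length = n := by
  unfold wds
  rw [Finset.mem_image]
  constructor
  · rintro ⟨f, -, rfl⟩
    exact List.length_ofFn
  · rintro rfl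
    exact ⟨r.get, Finset.mem_univ _, List.ofFn_get r⟩

theorem card_wds (n : ℕ) : (wds n).card = 2 ^ n := by
  unfold wds
  rw [Finset.card_image_of_injective _ List.ofFn_injective, Finset.card_univ, Fintype.card_fun,
    Fintype.card_bool, Fintype.card_fin]

/-- A system of oracle functions `F i` and of randomised oracle machines `acc j` (`acc j A x r`:
machine `j` with oracle `A` accepts `x` with the random word `r`), with their sets of questions,
the lengths `rl` of the random words and the bounds `bd`. -/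
structure Sys where
  F : ℕ → Orc → Wd → Wd
  askF : ℕ → Orc → Wd → Finset Wd
  acc : ℕ → Orc → Wd → Wd → Bool
  askA : ℕ → Orc → Wd → Wd → Finset Wd
  rl : ℕ → ℕ → ℕ
  bd : ℕ → ℕ → ℕ
  locF : ∀ i A B x, (∀ q ∈ askF i A x, A q = B q) → F i B x = F i A x
  locA : ∀ j A B x r, r.length = rl j x.length → (∀ q ∈ askA j A x r, A q = B q) →
    acc j B x r = acc j A x r
  lenF : ∀ i A x, ∀ q ∈ askF i A x, q.length ≤ bd i x.length
  lenA : ∀ j A x r, r.length = rl j x.length → ∀ q ∈ askA j A x r, q.length ≤ bd j x.length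
  cardF : ∀ i A x, (askF i A x).card ≤ bd i x.length
  cardA : ∀ j A x r, r.length = rl j x.length → (askA j A x r).card ≤ bd j x.length
  outF : ∀ i A x, (F i A x).length ≤ bd i x.length
  bd_mono : ∀ j, Monotone (bd j)
  bd_poly : ∀ j, ∃ c, ∀ n, bd j n ≤ n ^ c + c

/-- Two oracles agree below the length `N`. -/
def agree (N : ℕ) (A B : Orc) : Prop := ∀ q : Wd, q.length < N → A q = B q

theorem agree.symm {N : ℕ} {A B : Orc} (h : agree N A B) : agree N B A := fun q hq => (h q hq).symm

theorem agree.trans {N : ℕ} {A B C : Orc} (h : agree N A B) (h' : agree N B C) : agree N A C :=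
  fun q hq => (h q hq).trans (h' q hq)

theorem agree.mono {M N : ℕ} (hMN : M ≤ N) {A B : Orc} (h : agree N A B) : agree M A B :=
  fun q hq => h q (hq.trans_le hMN)

/-! ### Codes -/

/-- `1^j 0 w`. -/
def un (j : ℕ) (w : Wd) : Wd := List.replicate j true ++ false :: w

theorem un_inj {j j' : ℕ} {w w' : Wd} (h : un j w = un j' w') : j = j' ∧ w = w' := by
  induction j generalizing j' with
  | zero =>
    cases j' with
    | zero => simpa [un] using h
    | succ j' => simp [un, List.replicate_succ] at h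
  | succ j ih =>
    cases j' with
    | zero => simp [un, List.replicate_succ] at h
    | succ j' =>
      have h1 : un j w = un j' w' := by
        simpa [un, List.replicate_succ] using h
      obtain ⟨h2, h3⟩ := ih h1
      exact ⟨by rw [h2], h3⟩

theorem length_un (j : ℕ) (w : Wd) : (un j w).length = j + 1 + w.length := by
  unfold un
  rw [List.length_append, List.length_replicate, List.length_cons]
  ring

/-- The name of the computation of machine `j` on `x`, with gap `1 / (s + 1)` and clock `m`. -/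
def vc (j s m : ℕ) (x : Wd) : Wd := un j (un s (un m x))

theorem vc_inj {j s m j' s' m' : ℕ} {x x' : Wd} (h : vc j s m x = vc j' s' m' x') :
    j = j' ∧ s = s' ∧ m = m' ∧ x = x' := by
  obtain ⟨h1, h2⟩ := un_inj h
  obtain ⟨h3, h4⟩ := un_inj h2
  obtain ⟨h5, h6⟩ := un_inj h4
  exact ⟨h1, h3, h5, h6⟩

theorem length_vc (j s m : ℕ) (x : Wd) : (vc j s m x).length = j + s + m + x.length + 3 := by
  unfold vc
  rw [length_un, length_un, length_un]
  ring

/-- The code word of `v` and `ρ` (used for `|ρ| = |v| + 1`). -/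
def cw (v ρ : Wd) : Wd := false :: (v ++ ρ)

theorem length_cw {v ρ : Wd} (h : ρ.length = v.length + 1) : (cw v ρ).length = 2 * v.length + 2 := by
  unfold cw
  rw [List.length_cons, List.length_append, h]
  ring

theorem cw_inj {v ρ v' ρ' : Wd} (h : cw v ρ = cw v' ρ') (h1 : ρ.length = v.length + 1)
    (h2 : ρ'.length = v'.length + 1) : v = v' ∧ ρ = ρ' := by
  have h3 : v.length = v'.length := by
    have := congrArg List.length h
    rw [length_cw h1, length_cw h2] at this
    omega
  unfold cw at h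
  exact List.append_inj (List.cons_inj_right false |>.1 h) h3

/-- The word of `y` for machine `j`. -/
def yw (j : ℕ) (y : Wd) : Wd := true :: un j y

theorem length_yw (j : ℕ) (y : Wd) : (yw j y).length = j + y.length + 2 := by
  unfold yw
  rw [List.length_cons, length_un]
  ring

theorem yw_inj {j j' : ℕ} {y y' : Wd} (h : yw j y = yw j' y') : j = j' ∧ y = y' := by
  unfold yw at h
  exact un_inj (List.cons_inj_right true |>.1 h)

theorem yw_ne_cw (j : ℕ) (y v ρ : Wd) : yw j y ≠ cw v ρ := by
  intro h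
  unfold yw cw at h
  exact absurd (List.cons.inj h).1 (by decide)

namespace Sys

variable (S : Sys)

/-- The acceptance probability of machine `j` on `x` with oracle `A`. -/
noncomputable def pr (j : ℕ) (A : Orc) (x : Wd) : ℝ :=
  ((wds (S.rl j x.length)).filter fun r => S.acc j A x r = true).card / 2 ^ S.rl j x.length

theorem pr_nonneg (j : ℕ) (A : Orc) (x : Wd) : 0 ≤ S.pr j A x :=
  div_nonneg (Nat.cast_nonneg _) (by positivity)

theorem pr_congr {j : ℕ} {A B : Orc} {x : Wd}
    (h : ∀ q : Wd, q.length ≤ S.bd j x.length → A q = B q) : S.pr j A x = S.pr j B x := by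
  unfold pr
  congr 2
  refine congrArg Finset.card (Finset.filter_congr fun r hr => ?_)
  rw [mem_wds] at hr
  rw [S.locA j A B x r hr fun q hq => h q (S.lenA j A x r hr q hq)]

theorem pr_congr' {j : ℕ} {A B : Orc} {x : Wd} {N : ℕ} (h : agree N A B)
    (hN : S.bd j x.length < N) : S.pr j A x = S.pr j B x :=
  S.pr_congr fun q hq => h q (hq.trans_lt hN)

theorem F_congr {i : ℕ} {A B : Orc} {x : Wd} {N : ℕ} (h : agree N A B)
    (hN : S.bd i x.length < N) : S.F i B x = S.F i A x :=
  S.locF i A B x fun q hq => h q ((S.lenF i A x q hq).trans_lt hN)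

theorem pr_pos_iff {j : ℕ} {A : Orc} {x : Wd} :
    0 < S.pr j A x ↔ ∃ r : Wd, r.length = S.rl j x.length ∧ S.acc j A x r = true := by
  unfold pr
  rw [div_pos_iff_of_pos_right (by positivity), Nat.cast_pos, Finset.card_pos]
  constructor
  · rintro ⟨r, hr⟩
    rw [Finset.mem_filter, mem_wds] at hr
    exact ⟨r, hr⟩
  · rintro ⟨r, hr⟩
    exact ⟨r, by rw [Finset.mem_filter, mem_wds]; exact hr⟩

/-- `q` is a code word of the computation `p = (j, s, m, x)`. -/
def IsC (q : Wd) (p : ℕ × ℕ × ℕ × Wd) : Prop :=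
  S.bd p.1 p.2.2.2.length ≤ p.2.2.1 ∧ ∃ ρ : Wd,
    ρ.length = (vc p.1 p.2.1 p.2.2.1 p.2.2.2).length + 1 ∧
    q = cw (vc p.1 p.2.1 p.2.2.1 p.2.2.2) ρ

theorem IsC.unique {q : Wd} {p p' : ℕ × ℕ × ℕ × Wd} (h : S.IsC q p) (h' : S.IsC q p') :
    p = p' := by
  obtain ⟨-, ρ, h1, rfl⟩ := h
  obtain ⟨-, ρ', h1', h2⟩ := h'
  obtain ⟨h3, h4, h5, h6⟩ := vc_inj (cw_inj h2 h1 h1').1
  exact Prod.ext h3 (Prod.ext h4 (Prod.ext h5 h6))

theorem IsC.length {q : Wd} {p : ℕ × ℕ × ℕ × Wd} (h : S.IsC q p) :
    q.length = 2 * (p.1 + p.2.1 + p.2.2.1 + p.2.2.2.length + 3) + 2 := by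
  obtain ⟨-, ρ, h1, rfl⟩ := h
  rw [length_cw h1, length_vc]

theorem not_isC_yw (j : ℕ) (y : Wd) (p : ℕ × ℕ × ℕ × Wd) : ¬ S.IsC (yw j y) p := by
  rintro ⟨-, ρ, -, h⟩
  exact yw_ne_cw _ _ _ _ h

/-- An oracle is legal if for every computation with name `v` at least `7/8` of the words `ρ`
have the same value `b`, and `b` is right if the acceptance probability is at least
`1/2 + 1/(s+1)` or at most `1/2 - 1/(s+1)`; for the other words `v` at least `7/8` of the words
`ρ` have the same value, too. -/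
def Legal (A : Orc) : Prop := (∀ (j s m : ℕ) (x : Wd), S.bd j x.length ≤ m → ∃ b : Bool,
  ((wds ((vc j s m x).length + 1)).filter fun ρ => A (cw (vc j s m x) ρ) ≠ b).card * 8 ≤
    2 ^ ((vc j s m x).length + 1) ∧
  (1 / 2 + 1 / ((s : ℝ) + 1) ≤ S.pr j A x → b = true) ∧
  (S.pr j A x ≤ 1 / 2 - 1 / ((s : ℝ) + 1) → b = false)) ∧
  ∀ v : Wd, ∃ b : Bool,
    ((wds (v.length + 1)).filter fun ρ => A (cw v ρ) ≠ b).card * 8 ≤ 2 ^ (v.length + 1)

end Sys

end F6Core
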